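import Pool.Agent.Y945.Sol.Core

/-!
# Properties (a) and (d) each imply amenability

`is12 A = inf_μ sup_y μ(A y)`, `μ` ranging over the finitely supported probability measures on the
group `G`.  We show that every non-amenable group is a union of a set `A` and its complement, both
of `is12` equal to `0`.  Hence a group in which every partition into `n` cells has a cell with
`is12 ≥ 1/n` (property (a)), or a cell with `is12 > 0` (property (d)), is amenable.
-/

namespace Pool.Agent.Results.MP_d97def_al.DensityPropertiesAmenable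

set_option linter.unusedSectionVars false

universe u

open Pool.Agent.Y945.Sol

/-- the finitely supported probability measures `P_ω(G)` -/
def PFin (G : Type u) : Type u :=
  {μ : G →₀ ℝ // (∀ x, 0 ≤ μ x) ∧ (μ.sum fun _ r => r) = 1}

/-- the `μ`-measure `μ(B)` of a set `B` -/
noncomputable def mass {G : Type u} (μ : PFin G) (B : Set G) : ℝ :=
  μ.1.sum fun x r => B.indicator (fun _ => r) x

/-- `is12 A = inf_{μ ∈ P_ω(G)} sup_{y ∈ G} μ(A y)` -/
noncomputable def is12 {G : Type u} [Group G] (A : Set G) : ℝ :=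
  ⨅ μ : PFin G, ⨆ y : G, mass μ ((fun a => a * y) '' A)

/-- Property (a): every partition of `G` into `n ≥ 1` (nonempty) cells, given by a surjective
colouring `c : G → Fin n`, has a cell `A` with `is12 A ≥ 1 / n`. -/
def PropertyA (G : Type u) [Group G] : Prop :=
  ∀ n : ℕ, 1 ≤ n → ∀ c : G → Fin n, Function.Surjective c →
    ∃ i : Fin n, 1 / (n : ℝ) ≤ is12 {x | c x = i}

/-- Property (d): every partition of `G` into `n ≥ 1` (nonempty) cells, given by a surjective
colouring `c : G → Fin n`, has a cell `A` with `is12 A > 0`. -/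
def PropertyD (G : Type u) [Group G] : Prop :=
  ∀ n : ℕ, 1 ≤ n → ∀ c : G → Fin n, Function.Surjective c →
    ∃ i : Fin n, 0 < is12 {x | c x = i}

section

variable {G : Type u} [Group G]

lemma mass_nonneg (μ : PFin G) (B : Set G) : 0 ≤ mass μ B := by
  classical
  refine Finset.sum_nonneg fun x _ => ?_
  simp only [Set.indicator_apply]
  split_ifs
  · exact μ.2.1 x
  · exact le_rfl

lemma mass_le_one (μ : PFin G) (B : Set G) : mass μ B ≤ 1 := by
  classical
  rw [← μ.2.2]
  refine Finset.sum_le_sum fun x _ => ?_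
  simp only [Set.indicator_apply]
  split_ifs
  · exact le_rfl
  · exact μ.2.1 x

lemma mass_univ (μ : PFin G) : mass μ Set.univ = 1 := by
  rw [← μ.2.2]
  simp [mass]

lemma bddAbove_mass (μ : PFin G) (A : Set G) :
    BddAbove (Set.range fun y : G => mass μ ((fun a => a * y) '' A)) :=
  ⟨1, by rintro _ ⟨y, rfl⟩; exact mass_le_one μ _⟩

lemma iSup_nonneg' (μ : PFin G) (A : Set G) : 0 ≤ ⨆ y : G, mass μ ((fun a => a * y) '' A) :=
  (mass_nonneg μ _).trans (le_ciSup (bddAbove_mass μ A) 1)

lemma bddBelow_iSup (A : Set G) :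
    BddBelow (Set.range fun μ : PFin G => ⨆ y : G, mass μ ((fun a => a * y) '' A)) :=
  ⟨0, by rintro _ ⟨μ, rfl⟩; exact iSup_nonneg' μ A⟩

lemma is12_nonneg (A : Set G) : 0 ≤ is12 A :=
  Real.iInf_nonneg fun μ => iSup_nonneg' μ A

instance : Nonempty (PFin G) :=
  ⟨⟨Finsupp.single 1 1, fun x => by
    classical
    rw [Finsupp.single_apply]; split_ifs <;> norm_num, by simp⟩⟩

lemma is12_univ : is12 (Set.univ : Set G) = 1 := by
  have h : ∀ μ : PFin G, (⨆ y : G, mass μ ((fun a => a * y) '' Set.univ)) = 1 := by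
    intro μ
    have h2 : ∀ y : G, ((fun a => a * y) '' (Set.univ : Set G)) = Set.univ := fun y =>
      Set.image_univ_of_surjective (mul_right_surjective y)
    simp only [h2, mass_univ, ciSup_const]
  unfold is12
  simp only [h, ciInf_const]

lemma is12_eq_zero {A : Set G}
    (h : ∀ ε : ℝ, 0 < ε → ∃ μ : PFin G, ∀ y : G, mass μ ((fun a => a * y) '' A) ≤ ε) :
    is12 A = 0 := by
  refine le_antisymm (le_of_forall_pos_le_add fun ε hε => ?_) (is12_nonneg A)
  obtain ⟨μ, hμ⟩ := h ε hε
  rw [zero_add]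
  exact (ciInf_le (bddBelow_iSup A) μ).trans (ciSup_le hμ)

open Classical in
lemma exists_pfin {S : Finset G} {w : S → ℝ} (hw : ∀ g, 0 ≤ w g) (hw1 : ∑ g, w g = 1)
    {A : Set G} {ε : ℝ} (h : ∀ y : G, ∑ g : S, (if (g : G) * y⁻¹ ∈ A then w g else 0) ≤ ε) :
    ∃ μ : PFin G, ∀ y : G, mass μ ((fun a => a * y) '' A) ≤ ε := by
  have hnn : ∀ x, 0 ≤ (∑ g : S, Finsupp.single (g : G) (w g)) x := by
    intro x
    rw [Finsupp.finsetSum_apply]
    refine Finset.sum_nonneg fun g _ => ?_
    rw [Finsupp.single_apply]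
    split_ifs
    · exact hw g
    · exact le_rfl
  refine ⟨⟨∑ g : S, Finsupp.single (g : G) (w g), hnn, ?_⟩, fun y => ?_⟩
  · rw [← Finsupp.sum_finsetSum_index (by simp) (by simp)]
    simpa using hw1
  · refine le_trans (le_of_eq ?_) (h y)
    unfold mass
    rw [← Finsupp.sum_finsetSum_index]
    · refine Finset.sum_congr rfl fun g _ => ?_
      rw [Finsupp.sum_single_index]
      · simp only [Set.indicator_apply, Set.mem_image]
        have : (∃ x ∈ A, x * y = (g : G)) ↔ (g : G) * y⁻¹ ∈ A := by
          constructor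
          · rintro ⟨x, hx, hxy⟩
            rw [← hxy]
            simpa using hx
          · intro hx
            exact ⟨_, hx, by simp⟩
        simp [this]
      · simp [Set.indicator_apply]
    · intro a
      simp [Set.indicator_apply]
    · intro a b₁ b₂
      simp only [Set.indicator_apply]
      split_ifs <;> simp

/-- A non-amenable group is the union of two complementary nonempty sets of density zero. -/
theorem exists_split (hG : ¬ IsAmenable G) :
    ∃ A : Set G, A.Nonempty ∧ Aᶜ.Nonempty ∧ is12 A = 0 ∧ is12 Aᶜ = 0 := by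
  classical
  obtain ⟨A, hA⟩ := exists_null hG
  have h1 : is12 A = 0 := by
    refine is12_eq_zero fun ε hε => ?_
    obtain ⟨⟨S, w, hw, hw1, h⟩, -⟩ := hA ε hε
    exact exists_pfin hw hw1 (by convert! h)
  have h2 : is12 Aᶜ = 0 := by
    refine is12_eq_zero fun ε hε => ?_
    obtain ⟨-, ⟨S, w, hw, hw1, h⟩⟩ := hA ε hε
    refine exists_pfin hw hw1 ?_
    simpa only [Set.mem_compl_iff] using h
  refine ⟨A, ?_, ?_, h1, h2⟩
  · rw [Set.nonempty_iff_ne_empty]
    rintro rfl
    rw [Set.compl_empty, is12_univ] at h2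
    norm_num at h2
  · rw [Set.nonempty_iff_ne_empty]
    intro h
    rw [Set.compl_empty_iff] at h
    rw [h, is12_univ] at h1
    norm_num at h1

lemma exists_colouring {A : Set G} (h : A.Nonempty) (h' : Aᶜ.Nonempty) :
    ∃ c : G → Fin 2, Function.Surjective c ∧ {x | c x = 0} = A ∧ {x | c x = 1} = Aᶜ := by
  classical
  obtain ⟨a, ha⟩ := h
  obtain ⟨b, hb⟩ := h'
  refine ⟨fun x => if x ∈ A then 0 else 1, ?_, ?_, ?_⟩
  · intro i
    fin_cases i
    · exact ⟨a, by simp [ha]⟩
    · exact ⟨b, by simpa using hb⟩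
  · ext x; by_cases hx : x ∈ A <;> simp [hx]
  · ext x; by_cases hx : x ∈ A <;> simp [hx]

end

/-- **Theorem.** Let `G` be a group.
(1) If `G` is not amenable, then `G` is the disjoint union of two nonempty sets `A`, `Aᶜ` with
`is12 A = is12 Aᶜ = 0`.
(2) If `G` has property (a), then `G` is amenable.
(3) If `G` has property (d), then `G` is amenable. -/
theorem result (G : Type u) [Group G] :
    (¬ IsAmenable G → ∃ A : Set G, A.Nonempty ∧ Aᶜ.Nonempty ∧ is12 A = 0 ∧ is12 Aᶜ = 0) ∧
    (PropertyA G → IsAmenable G) ∧ (PropertyD G → IsAmenable G) := by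
  have hD : PropertyD G → IsAmenable G := by
    intro hD
    by_contra hG
    obtain ⟨A, hne, hne', h1, h2⟩ := exists_split hG
    obtain ⟨c, hc, hc0, hc1⟩ := exists_colouring hne hne'
    obtain ⟨i, hi⟩ := hD 2 (by norm_num) c hc
    fin_cases i
    · simp only [Fin.zero_eta, hc0, h1, lt_self_iff_false] at hi
    · simp only [Fin.mk_one, hc1, h2, lt_self_iff_false] at hi
  refine ⟨exists_split, fun hA => hD fun n hn c hc => ?_, hD⟩
  obtain ⟨i, hi⟩ := hA n hn c hc
  exact ⟨i, lt_of_lt_of_le (by positivity) hi⟩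

end Pool.Agent.Results.MP_d97def_al.DensityPropertiesAmenable
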